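import Pool.Agent.T2h19.ST.Loc

/-!
The truncated counting function on a product of lines over `K` and over an extension `L`.
-/

set_option autoImplicit false

namespace Pool.Agent.T2h19.ST

open NumberField IsDedekindDomain Module Height
open Pool.Agent.H691R3 (fv fv_na fv_support_finite log_fv Nv log_Nv_pos)
open Pool.Agent.TH905.VF (fv_lt_ext fv_lt_iff rel product_formula exists_supp)
open Pool.Agent.N752.HY (Outside ldisc)
open Pool.Agent.N752.HY.Ext (sup_finite sup_pos' logHeight_sum above_finite sum_above keyW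
  outside_ext fv_sum_le fv_int_le ld finrank_pos')
open scoped Classical

variable {K : Type} [Field K] [NumberField K] {m : ℕ}

/-- the local height relative to `P = 0`, of degrees `d` -/
noncomputable def lp {K : Type} [Field K] {m : ℕ} (L : Type) [Field L] [Algebra K L]
    (f : L → ℝ) (P : MvPolynomial (Fin m) K) (d : Fin m → ℕ) (x : Fin m → K) : ℝ :=
  loc L f (fun s : P.support => P.coeff s) d (MvPolynomial.eval x P) x

section

variable {L : Type} [Field L] [NumberField L] [Algebra K L]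

omit [NumberField K] in
lemma coeff_ne {P : MvPolynomial (Fin m) K} (hP : P ≠ 0) :
    (fun s : P.support => P.coeff s) ≠ 0 := by
  intro h
  obtain ⟨s, hs⟩ := MvPolynomial.support_nonempty.2 hP
  exact MvPolynomial.mem_support_iff.1 hs (congrFun h ⟨s, hs⟩)

omit [NumberField K] in
lemma ne_of_eval {P : MvPolynomial (Fin m) K} {x : Fin m → K}
    (hx : MvPolynomial.eval x P ≠ 0) : P ≠ 0 := by
  rintro rfl
  exact hx (map_zero _)

lemma lp_nonneg {P : MvPolynomial (Fin m) K} {d : Fin m → ℕ} (hd : ∀ i, P.degreeOf i ≤ d i)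
    {x : Fin m → K} (hx : MvPolynomial.eval x P ≠ 0) (w : HeightOneSpectrum (𝓞 L)) :
    0 ≤ lp L (fv w) P d x := by
  have hsup : 0 < ⨆ s : P.support, fv w (algebraMap K L (P.coeff s)) :=
    sup_pos' (fv w) (mapi_ne (L := L) (coeff_ne (ne_of_eval hx)))
  have h1 : ∀ i, (1 : ℝ) ≤ max 1 (fv w (algebraMap K L (x i))) := fun i => le_max_left _ _
  have hprod : 0 < ∏ i, max 1 (fv w (algebraMap K L (x i))) ^ d i :=
    Finset.prod_pos fun i _ => pow_pos (lt_of_lt_of_le one_pos (h1 i)) _
  have hlog : Real.log (∏ i, max 1 (fv w (algebraMap K L (x i))) ^ d i) =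
      ∑ i, (d i : ℝ) * Real.log (max 1 (fv w (algebraMap K L (x i)))) := by
    rw [Real.log_prod fun i _ => (pow_pos (lt_of_lt_of_le one_pos (h1 i)) _).ne']
    refine Finset.sum_congr rfl fun i _ => ?_
    rw [Real.log_pow]
  have hcs : ∀ s ∈ P.support, fv w (algebraMap K L (P.coeff s)) ≤
      ⨆ s : P.support, fv w (algebraMap K L (P.coeff s)) := by
    intro s hs
    have h := le_ciSup (f := fun s : P.support => fv w (algebraMap K L (P.coeff s.1)))
      (Set.finite_range _).bddAbove (⟨s, hs⟩ : P.support)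
    exact h
  have h2 : fv w (algebraMap K L (MvPolynomial.eval x P)) ≤
      (⨆ s : P.support, fv w (algebraMap K L (P.coeff s))) *
        ∏ i, max 1 (fv w (algebraMap K L (x i))) ^ d i := by
    clear hlog
    generalize (⨆ s : P.support, fv w (algebraMap K L (P.coeff s))) = M at hcs hsup ⊢
    have hev : MvPolynomial.eval x P = ∑ s ∈ P.support, P.coeff s * ∏ i, x i ^ s i :=
      MvPolynomial.eval_eq' x P
    have hev2 : algebraMap K L (MvPolynomial.eval x P) =
        ∑ s ∈ P.support, algebraMap K L (P.coeff s * ∏ i, x i ^ s i) := by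
      rw [hev, map_sum]
    have hterm : ∀ s ∈ P.support, fv w (algebraMap K L (P.coeff s * ∏ i, x i ^ s i)) ≤
        M * ∏ i, max 1 (fv w (algebraMap K L (x i))) ^ d i := by
      intro s hs
      have e1 : algebraMap K L (P.coeff s * ∏ i, x i ^ s i) =
          algebraMap K L (P.coeff s) * ∏ i, algebraMap K L (x i) ^ s i := by
        rw [map_mul, map_prod]
        simp only [map_pow]
      have e2 : fv w (algebraMap K L (P.coeff s) * ∏ i, algebraMap K L (x i) ^ s i) =
          fv w (algebraMap K L (P.coeff s)) * ∏ i, fv w (algebraMap K L (x i)) ^ s i := by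
        rw [map_mul, map_prod]
        simp only [map_pow]
      rw [e1, e2]
      refine mul_le_mul (hcs s hs) ?_ ?_ hsup.le
      · refine Finset.prod_le_prod (fun i _ => pow_nonneg ((fv w).nonneg _) _) fun i _ => ?_
        refine (pow_le_pow_left₀ ((fv w).nonneg _) (le_max_right 1 _) _).trans ?_
        exact pow_le_pow_right₀ (h1 i) ((MvPolynomial.monomial_le_degreeOf i hs).trans (hd i))
      · exact Finset.prod_nonneg fun i _ => pow_nonneg ((fv w).nonneg _) _
    rw [hev2]
    exact fv_sum_le w P.support (fun s => algebraMap K L (P.coeff s * ∏ i, x i ^ s i)) _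
      (mul_nonneg hsup.le hprod.le) hterm
  unfold lp loc
  rw [← hlog, ← Real.log_mul hsup.ne' hprod.ne', sub_nonneg]
  exact Real.log_le_log ((fv w).pos ((map_ne_zero _).2 hx)) h2

end

variable {γ : Type} [Fintype γ]

/-- the truncated counting function over `L`, outside `S`, of the components in `J` -/
noncomputable def cnt {K : Type} [Field K] {m : ℕ} (L : Type) [Field L] [NumberField L]
    [Algebra K L] (S : Finset ℕ) (G : γ → MvPolynomial (Fin m) K) (d : γ → Fin m → ℕ)
    (J : Finset γ) (x : Fin m → K) : ℝ :=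
  (∑ᶠ w : HeightOneSpectrum (𝓞 L), if Outside S w ∧ ∃ c ∈ J, 0 < lp L (fv w) (G c) (d c) x then
    Real.log (Ideal.absNorm w.asIdeal) else 0) / finrank ℚ L

/-- integral points of the root stack -/
def Int {K : Type} [Field K] {m : ℕ} (L : Type) [Field L] [NumberField L]
    [Algebra K L] (S : Finset ℕ) (G : γ → MvPolynomial (Fin m) K) (d : γ → Fin m → ℕ)
    (e : γ → ℕ) (x : Fin m → K) : Prop :=
  ∀ w : HeightOneSpectrum (𝓞 L), Outside S w → ∀ c, ∃ t : ℕ,
    lp L (fv w) (G c) (d c) x = t * e c * Real.log (Ideal.absNorm w.asIdeal)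

/-- the proximity function -/
noncomputable def prp {K : Type} [Field K] {m : ℕ} (L : Type) [Field L] [NumberField L]
    [Algebra K L] (S : Finset ℕ) (P : MvPolynomial (Fin m) K) (d : Fin m → ℕ)
    (x : Fin m → K) : ℝ :=
  prox L S (fun s : P.support => P.coeff s) d (MvPolynomial.eval x P) x

theorem transfer [DecidableEq γ] (L : Type) [Field L] [NumberField L] [Algebra K L] (S : Finset ℕ)
    (G : γ → MvPolynomial (Fin m) K) (d : γ → Fin m → ℕ) (x : Fin m → K) (e : γ → ℕ)
    (J : Finset γ) (hdg : ∀ c i, (G c).degreeOf i ≤ d c i)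
    (hl : ∀ c, MvPolynomial.eval x (G c) ≠ 0) (hS : ∀ p ∈ S, p.Prime) (he : ∀ c, 1 ≤ e c)
    (hint : Int L S G d e x) :
    cnt K ∅ G d Finset.univ x + ∑ c ∈ Jᶜ, 1 / (e c : ℝ) * prp L S (G c) (d c) x ≤
      cnt L S G d J x + (ldisc L - ldisc K) + ∑ p ∈ S, Real.log p +
        ∑ c ∈ Jᶜ, 1 / (e c : ℝ) * ((logHeight (fun s : (G c).support => (G c).coeff s) +
          ∑ i, (d c i : ℝ) * logHeight₁ (x i)) / finrank ℚ K) := by
  have hd : (0 : ℝ) < finrank ℚ K := by exact_mod_cast finrank_pos
  have hLp := finrank_pos' (K := K) (L := L)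
  have htow : (finrank ℚ L : ℝ) = finrank ℚ K * finrank K L := by
    exact_mod_cast (finrank_mul_finrank ℚ K L).symm
  have he0 : ∀ i, (0 : ℝ) < e i := fun i => by exact_mod_cast he i
  have hG : ∀ c, (fun s : (G c).support => (G c).coeff s) ≠ 0 := fun c =>
    coeff_ne (ne_of_eval (hl c))
  have hnn : ∀ c (w : HeightOneSpectrum (𝓞 L)), 0 ≤ lp L (fv w) (G c) (d c) x := fun c w =>
    lp_nonneg (hdg c) (hl c) w
  -- the primes of `K`
  have hfinK : {v : HeightOneSpectrum (𝓞 K) | ∃ c, 0 < lp K (fv v) (G c) (d c) x}.Finite := by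
    refine (Set.finite_iUnion fun c => loc_support (L := K) (hG c) (d := d c) (hl c)
      (x := x)).subset ?_
    rintro v ⟨i, hi⟩
    exact Set.mem_iUnion.2 ⟨i, hi.ne'⟩
  have h1 : cnt K ∅ G d Finset.univ x =
      (∑ v ∈ hfinK.toFinset, Real.log (Ideal.absNorm v.asIdeal)) / finrank ℚ K := by
    unfold cnt
    rw [finsum_eq_sum_of_support_subset (s := hfinK.toFinset)]
    · congr 1
      refine Finset.sum_congr rfl fun v hv => ?_
      obtain ⟨i, hi⟩ := (Set.Finite.mem_toFinset _).1 hv
      exact if_pos ⟨fun p hp => absurd hp (Finset.notMem_empty p), i, Finset.mem_univ i, hi⟩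
    · intro v hv
      rw [Finset.mem_coe, Set.Finite.mem_toFinset]
      by_contra hc
      refine hv (if_neg ?_)
      rintro ⟨-, i, -, hi⟩
      exact hc ⟨i, hi⟩
  set R := hfinK.toFinset.filter (fun v => Outside S v) with hR
  set Rb := hfinK.toFinset.filter (fun v => ¬ Outside S v) with hRb
  have h2 : ∑ v ∈ hfinK.toFinset, Real.log (Ideal.absNorm v.asIdeal) =
      ∑ v ∈ R, Real.log (Ideal.absNorm v.asIdeal) +
        ∑ v ∈ Rb, Real.log (Ideal.absNorm v.asIdeal) :=
    (Finset.sum_filter_add_sum_filter_not _ _ _).symm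
  have h3 := sum_above (L := K) S hS Rb fun v hv => (Finset.mem_filter.1 hv).2
  have hRp : ∀ v ∈ R, Outside S v ∧ ∃ c, 0 < lp K (fv v) (G c) (d c) x := by
    intro v hv
    obtain ⟨h4, h5⟩ := Finset.mem_filter.1 hv
    have h6 := (Set.Finite.mem_toFinset hfinK).1 h4
    exact ⟨h5, h6⟩
  -- the primes of `L`
  have hfinJ : {w : HeightOneSpectrum (𝓞 L) | Outside S w ∧
      ∃ c ∈ J, 0 < lp L (fv w) (G c) (d c) x}.Finite := by
    refine (Set.finite_iUnion fun c => loc_support (L := L) (hG c) (d := d c) (hl c)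
      (x := x)).subset ?_
    rintro w ⟨-, i, -, hi⟩
    exact Set.mem_iUnion.2 ⟨i, hi.ne'⟩
  have hnJ : cnt L S G d J x =
      (∑ w ∈ hfinJ.toFinset, Real.log (Ideal.absNorm w.asIdeal)) / finrank ℚ L := by
    unfold cnt
    rw [finsum_eq_sum_of_support_subset (s := hfinJ.toFinset)]
    · congr 1
      refine Finset.sum_congr rfl fun w hw => ?_
      exact if_pos ((Set.Finite.mem_toFinset _).1 hw)
    · intro w hw
      rw [Finset.mem_coe, Set.Finite.mem_toFinset]
      by_contra hc
      exact hw (if_neg hc)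
  have key := keyW (K := K) (L := L) R hfinJ.toFinset
    (fun w => ∑ c ∈ Jᶜ, 1 / (e c : ℝ) * lp L (fv w) (G c) (d c) x)
    (∑ c ∈ Jᶜ, 1 / (e c : ℝ) * (finrank K L *
      ((logHeight (fun s : (G c).support => (G c).coeff s) +
        ∑ i, (d c i : ℝ) * logHeight₁ (x i)) - finrank ℚ K * prp L S (G c) (d c) x))) ?_ ?_
  · have h7 : (∑ c ∈ Jᶜ, 1 / (e c : ℝ) * (finrank K L *
        ((logHeight (fun s : (G c).support => (G c).coeff s) +
        ∑ i, (d c i : ℝ) * logHeight₁ (x i)) - finrank ℚ K * prp L S (G c) (d c) x))) /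
          finrank K L =
        finrank ℚ K * ∑ c ∈ Jᶜ, 1 / (e c : ℝ) *
          ((logHeight (fun s : (G c).support => (G c).coeff s) +
          ∑ i, (d c i : ℝ) * logHeight₁ (x i)) / finrank ℚ K) -
          finrank ℚ K * ∑ c ∈ Jᶜ, 1 / (e c : ℝ) * prp L S (G c) (d c) x := by
      rw [Finset.sum_div, Finset.mul_sum, Finset.mul_sum, ← Finset.sum_sub_distrib]
      refine Finset.sum_congr rfl fun i _ => ?_
      have := (he0 i).ne'
      field_simp
    have h8 : ld K L = finrank ℚ K * (ldisc L - ldisc K) := by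
      unfold ld ldisc
      rw [htow]
      field_simp
    have h9 : (∑ w ∈ hfinJ.toFinset, Real.log (Ideal.absNorm w.asIdeal : ℝ)) / finrank K L =
        finrank ℚ K * cnt L S G d J x := by
      rw [hnJ, htow]
      field_simp
    rw [add_div, h7, h8, h9] at key
    rw [h1]
    refine le_of_mul_le_mul_left ?_ hd
    have e1 : (finrank ℚ K : ℝ) * ((∑ v ∈ hfinK.toFinset, Real.log (Ideal.absNorm v.asIdeal)) /
        finrank ℚ K + ∑ c ∈ Jᶜ, 1 / (e c : ℝ) * prp L S (G c) (d c) x) =
        ∑ v ∈ hfinK.toFinset, Real.log (Ideal.absNorm v.asIdeal) +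
        finrank ℚ K * ∑ c ∈ Jᶜ, 1 / (e c : ℝ) * prp L S (G c) (d c) x := by
      field_simp
    rw [e1, h2]
    rw [mul_add (finrank ℚ K : ℝ), mul_add (finrank ℚ K : ℝ), mul_add (finrank ℚ K : ℝ)]
    linarith
  · rintro w ⟨v, hvR, hvw⟩
    have hterm : ∀ i, 0 ≤ 1 / (e i : ℝ) * lp L (fv w) (G i) (d i) x := fun i =>
      mul_nonneg (by positivity) (hnn i w)
    refine ⟨Finset.sum_nonneg fun i _ => hterm i, ?_⟩
    obtain ⟨hvS, i, hi⟩ := hRp v hvR
    have hwS : Outside S w := outside_ext S v w hvw hvS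
    have hpos : 0 < lp L (fv w) (G i) (d i) x := loc_pos (hG i) (hl i) v w hvw hi
    by_cases hiJ : i ∈ J
    · left
      rw [Set.Finite.mem_toFinset]
      exact ⟨hwS, i, hiJ, hpos⟩
    · right
      obtain ⟨t, ht⟩ := hint w hwS i
      have ht1 : 1 ≤ t := by
        by_contra hc
        have : t = 0 := by omega
        rw [ht, this, Nat.cast_zero, zero_mul, zero_mul] at hpos
        exact lt_irrefl _ hpos
      have h5 : Real.log (Ideal.absNorm w.asIdeal) ≤
          1 / (e i : ℝ) * lp L (fv w) (G i) (d i) x := by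
        rw [ht]
        have h0 : 0 ≤ Real.log (Ideal.absNorm w.asIdeal : ℝ) := Real.log_natCast_nonneg _
        have ht1' : (1 : ℝ) ≤ t := by exact_mod_cast ht1
        have he' := (he0 i).ne'
        have : 1 / (e i : ℝ) * (t * e i * Real.log (Ideal.absNorm w.asIdeal)) =
            t * Real.log (Ideal.absNorm w.asIdeal) := by
          field_simp
        rw [this]
        nlinarith
      refine h5.trans ?_
      exact Finset.single_le_sum (f := fun i => 1 / (e i : ℝ) * lp L (fv w) (G i) (d i) x)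
        (fun i _ => hterm i) (Finset.mem_compl.2 hiJ)
  · intro W hW
    rw [Finset.sum_comm]
    refine Finset.sum_le_sum fun i _ => ?_
    rw [← Finset.mul_sum]
    refine mul_le_mul_of_nonneg_left (prox_sum (hG i) (hl i) (hnn i) S hS W ?_) (by positivity)
    intro w hw
    obtain ⟨v, hv, hvw⟩ := hW w hw
    exact outside_ext S v w hvw (hRp v hv).1

end Pool.Agent.T2h19.ST
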