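import Pool.Agent.N752.HY.Ext

/-!
Local heights on products of lines, over a number field and over an extension.
-/

set_option autoImplicit false

namespace Pool.Agent.T2h19.ST

open NumberField IsDedekindDomain Module Height
open Pool.Agent.H691R3 (fv fv_na fv_support_finite log_fv Nv log_Nv_pos)
open Pool.Agent.TH905.VF (fv_lt_ext fv_lt_iff rel product_formula exists_supp)
open Pool.Agent.N752.HY (Outside ldisc)
open Pool.Agent.N752.HY.Ext (sup_finite sup_pos' logHeight_sum above_finite sum_above keyW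
  outside_ext fv_sum_le fv_int_le ld finrank_pos')
open scoped Classical

variable {K : Type} [Field K] [NumberField K] {m : ℕ} {ι : Type} [Finite ι]

/-- the local height `log (|a| ∏ max (1, |x_i|) ^ d_i / |b|)` -/
noncomputable def loc {K : Type} [Field K] {m : ℕ} {ι : Type} (L : Type) [Field L] [Algebra K L]
    (f : L → ℝ) (a : ι → K) (d : Fin m → ℕ) (b : K) (x : Fin m → K) : ℝ :=
  Real.log (⨆ s, f (algebraMap K L (a s))) +
    ∑ i, (d i : ℝ) * Real.log (max 1 (f (algebraMap K L (x i)))) -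
      Real.log (f (algebraMap K L b))

section

variable {L : Type} [Field L] [NumberField L] [Algebra K L]

lemma mapi_ne {a : ι → K} (ha : a ≠ 0) : (fun j => algebraMap K L (a j)) ≠ 0 := by
  intro h
  apply ha
  funext j
  have := congrFun h j
  exact (map_eq_zero _).1 this

/-- the vector `(x, 1)` -/
def aff {F : Type} [Field F] (z : F) : Fin 2 → F := ![z, 1]

lemma aff_ne {F : Type} [Field F] (z : F) : aff z ≠ 0 := by
  intro h
  have := congrFun h 1
  simp [aff] at this

lemma aff_map (z : K) : (fun j => algebraMap K L (aff z j)) = aff (algebraMap K L z) := by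
  funext j
  fin_cases j <;> simp [aff]

lemma sup_aff (f : AbsoluteValue L ℝ) (z : L) : (⨆ j, f (aff z j)) = max 1 (f z) := by
  have h1 : (⨆ j, f (aff z j)) = max (f z) 1 := by
    refine le_antisymm (ciSup_le fun j => ?_) (max_le ?_ ?_)
    · fin_cases j
      · simp [aff]
      · simp [aff]
    · exact le_ciSup (f := fun j => f (aff z j)) (Set.finite_range _).bddAbove 0
    · have := le_ciSup (f := fun j => f (aff z j)) (Set.finite_range _).bddAbove 1
      simpa [aff] using this
  rw [h1, max_comm]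

/-- positive local heights stay positive -/
lemma loc_pos {a : ι → K} (ha : a ≠ 0) {d : Fin m → ℕ} {b : K} (hb : b ≠ 0) {x : Fin m → K}
    (v : HeightOneSpectrum (𝓞 K)) (w : HeightOneSpectrum (𝓞 L))
    (hvw : w.asIdeal.LiesOver v.asIdeal) (h : 0 < loc K (fv v) a d b x) :
    0 < loc L (fv w) a d b x := by
  have hne : Nonempty ι := by
    obtain ⟨j, -⟩ := Function.ne_iff.1 ha
    exact ⟨j⟩
  have hid : ∀ z : K, algebraMap K K z = z := fun z => rfl
  unfold loc at h
  simp only [hid] at h
  obtain ⟨s, hs⟩ := exists_eq_ciSup_of_finite (f := fun s => fv v (a s))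
  have hsv : fv v (a s) = ⨆ s, fv v (a s) := hs
  -- the element of `K` with the largest value
  set c : K := a s * ∏ i, (if 1 ≤ fv v (x i) then x i else 1) ^ d i with hc
  have hmax : ∀ i, fv v (if 1 ≤ fv v (x i) then x i else 1) = max 1 (fv v (x i)) := by
    intro i
    split_ifs with h1
    · rw [max_eq_right h1]
    · rw [map_one, max_eq_left (not_le.1 h1).le]
  have hcv : fv v c = (⨆ s, fv v (a s)) * ∏ i, max 1 (fv v (x i)) ^ d i := by
    rw [hc, map_mul, map_prod, hsv]
    congr 1
    refine Finset.prod_congr rfl fun i _ => ?_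
    rw [map_pow, hmax]
  have hsup : 0 < ⨆ s, fv v (a s) := sup_pos' (fv v) ha
  have hprod : ∀ y : Fin m → ℝ, 0 < ∏ i, max 1 (y i) ^ d i := fun y =>
    Finset.prod_pos fun i _ => pow_pos (lt_of_lt_of_le one_pos (le_max_left _ _)) _
  have hlog : ∀ y : Fin m → ℝ, Real.log (∏ i, max 1 (y i) ^ d i) =
      ∑ i, (d i : ℝ) * Real.log (max 1 (y i)) := by
    intro y
    rw [Real.log_prod fun i _ => (pow_pos (lt_of_lt_of_le one_pos (le_max_left _ _)) _).ne']
    refine Finset.sum_congr rfl fun i _ => ?_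
    rw [Real.log_pow]
  have h2 : fv v b < fv v c := by
    rw [hcv]
    rw [← hlog, ← Real.log_mul hsup.ne' (hprod _).ne', sub_pos] at h
    exact (Real.log_lt_log_iff ((fv v).pos hb) (mul_pos hsup (hprod _))).1 h
  have h3 := (fv_lt_ext (L := L) v w hvw b c).2 h2
  have hsupw : 0 < ⨆ s, fv w (algebraMap K L (a s)) := sup_pos' (fv w) (mapi_ne (L := L) ha)
  have h4 : fv w (algebraMap K L c) ≤
      (⨆ s, fv w (algebraMap K L (a s))) * ∏ i, max 1 (fv w (algebraMap K L (x i))) ^ d i := by
    rw [hc, map_mul, map_mul, map_prod, map_prod]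
    refine mul_le_mul (le_ciSup (f := fun s => fv w (algebraMap K L (a s)))
      (Set.finite_range _).bddAbove s) ?_ (Finset.prod_nonneg fun i _ => (fv w).nonneg _) hsupw.le
    refine Finset.prod_le_prod (fun i _ => (fv w).nonneg _) fun i _ => ?_
    rw [map_pow, map_pow]
    refine pow_le_pow_left₀ ((fv w).nonneg _) ?_ _
    split_ifs with h1
    · exact le_max_right _ _
    · rw [map_one, map_one]
      exact le_max_left _ _
  unfold loc
  rw [← hlog (fun i => fv w (algebraMap K L (x i))),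
    ← Real.log_mul hsupw.ne' (hprod _).ne', sub_pos]
  exact Real.log_lt_log ((fv w).pos ((map_ne_zero _).2 hb)) (h3.trans_le h4)

lemma loc_support {a : ι → K} (ha : a ≠ 0) {d : Fin m → ℕ} {b : K} (hb : b ≠ 0) {x : Fin m → K} :
    {w : HeightOneSpectrum (𝓞 L) | loc L (fv w) a d b x ≠ 0}.Finite := by
  have h1 : (⋃ i, {w : HeightOneSpectrum (𝓞 L) |
      (⨆ j, fv w (aff (algebraMap K L (x i)) j)) ≠ 1}).Finite :=
    Set.finite_iUnion fun i => sup_finite (aff_ne _)
  refine (((sup_finite (mapi_ne (L := L) ha)).union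
    (fv_support_finite ((map_ne_zero (algebraMap K L)).2 hb))).union h1).subset ?_
  intro w hw
  by_contra hc
  apply hw
  simp only [Set.mem_union, Set.mem_ofPred_eq, not_or, not_not, Set.mem_iUnion, not_exists] at hc
  obtain ⟨⟨h2, h3⟩, h4⟩ := hc
  unfold loc
  rw [h2, h3, Real.log_one]
  have h5 : ∑ i, (d i : ℝ) * Real.log (max 1 (fv w (algebraMap K L (x i)))) = 0 := by
    refine Finset.sum_eq_zero fun i _ => ?_
    rw [← sup_aff (fv w), h4 i, Real.log_one, mul_zero]
  rw [h5]
  ring

/-- the sum of the local heights at infinity and at the primes in a finite set -/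
lemma sum_loc_le {a : ι → K} (ha : a ≠ 0) {d : Fin m → ℕ} {b : K} (hb : b ≠ 0) {x : Fin m → K}
    (hnn : ∀ w : HeightOneSpectrum (𝓞 L), 0 ≤ loc L (fv w) a d b x)
    (U : Finset (HeightOneSpectrum (𝓞 L))) :
    ∑ w : InfinitePlace L, (w.mult : ℝ) * loc L w.1 a d b x + ∑ v ∈ U, loc L (fv v) a d b x ≤
      Module.finrank K L * (logHeight a + ∑ i, (d i : ℝ) * logHeight₁ (x i)) := by
  have hX := mapi_ne (L := L) ha
  have hA : algebraMap K L b ≠ 0 := (map_ne_zero _).2 hb
  have hfin : (⋃ i, {w : HeightOneSpectrum (𝓞 L) |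
      (⨆ j, fv w (aff (algebraMap K L (x i)) j)) ≠ 1}).Finite :=
    Set.finite_iUnion fun i => sup_finite (aff_ne _)
  set T : Finset (HeightOneSpectrum (𝓞 L)) := U ∪ ((sup_finite hX).toFinset ∪
    ((fv_support_finite hA).toFinset ∪ hfin.toFinset)) with hT
  have hTx : ∀ v, v ∉ T → (⨆ j, fv v (algebraMap K L (a j))) = 1 := by
    intro v hv
    by_contra hc
    apply hv
    rw [hT]
    simp only [Finset.mem_union, Set.Finite.mem_toFinset]
    exact Or.inr (Or.inl hc)
  have hTl : ∀ v, v ∉ T → fv v (algebraMap K L b) = 1 := by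
    intro v hv
    by_contra hc
    apply hv
    rw [hT]
    simp only [Finset.mem_union, Set.Finite.mem_toFinset]
    exact Or.inr (Or.inr (Or.inl hc))
  have hTi : ∀ i v, v ∉ T → (⨆ j, fv v (aff (algebraMap K L (x i)) j)) = 1 := by
    intro i v hv
    by_contra hc
    apply hv
    rw [hT]
    simp only [Finset.mem_union, Set.Finite.mem_toFinset]
    exact Or.inr (Or.inr (Or.inr (Set.mem_iUnion.2 ⟨i, hc⟩)))
  have h2 := logHeight_sum _ hX T hTx
  have h2i := fun i => logHeight_sum _ (aff_ne (algebraMap K L (x i))) T (hTi i)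
  have h3 := product_formula hA T hTl
  have e1 := Pool.Agent.Helper259.HtExt.logHeight_ext (L := L) a
  have e2 : ∀ i, logHeight (aff (algebraMap K L (x i))) = finrank K L * logHeight₁ (x i) := by
    intro i
    rw [← aff_map, Pool.Agent.Helper259.HtExt.logHeight_ext (L := L) (aff (x i))]
    congr 1
    rw [logHeight₁_eq_logHeight]
    rfl
  have h4 : ∑ v ∈ U, loc L (fv v) a d b x ≤ ∑ v ∈ T, loc L (fv v) a d b x :=
    Finset.sum_le_sum_of_subset_of_nonneg Finset.subset_union_left fun v _ _ => hnn v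
  have h5 : ∑ w : InfinitePlace L, (w.mult : ℝ) * loc L w.1 a d b x =
      ∑ w : InfinitePlace L, (w.mult : ℝ) * Real.log (⨆ j, w.1 (algebraMap K L (a j))) +
      ∑ i, (d i : ℝ) * ∑ w : InfinitePlace L,
        (w.mult : ℝ) * Real.log (⨆ j, w.1 (aff (algebraMap K L (x i)) j)) -
      ∑ w : InfinitePlace L, (w.mult : ℝ) * Real.log (w.1 (algebraMap K L b)) := by
    simp_rw [Finset.mul_sum]
    rw [Finset.sum_comm, ← Finset.sum_add_distrib, ← Finset.sum_sub_distrib]
    refine Finset.sum_congr rfl fun w _ => ?_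
    unfold loc
    rw [mul_sub, mul_add, Finset.mul_sum]
    congr 2
    refine Finset.sum_congr rfl fun i _ => ?_
    rw [sup_aff w.1]
    ring
  have h6 : ∑ v ∈ T, loc L (fv v) a d b x =
      ∑ v ∈ T, Real.log (⨆ j, fv v (algebraMap K L (a j))) +
      ∑ i, (d i : ℝ) * ∑ v ∈ T, Real.log (⨆ j, fv v (aff (algebraMap K L (x i)) j)) -
      ∑ v ∈ T, Real.log (fv v (algebraMap K L b)) := by
    simp_rw [Finset.mul_sum]
    rw [Finset.sum_comm, ← Finset.sum_add_distrib, ← Finset.sum_sub_distrib]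
    refine Finset.sum_congr rfl fun w _ => ?_
    unfold loc
    congr 2
    refine Finset.sum_congr rfl fun i _ => ?_
    rw [sup_aff (fv w)]
  have h7 : ∑ i, (d i : ℝ) * (finrank K L * logHeight₁ (x i)) =
      ∑ i, (d i : ℝ) * ∑ w : InfinitePlace L,
        (w.mult : ℝ) * Real.log (⨆ j, w.1 (aff (algebraMap K L (x i)) j)) +
      ∑ i, (d i : ℝ) * ∑ v ∈ T, Real.log (⨆ j, fv v (aff (algebraMap K L (x i)) j)) := by
    rw [← Finset.sum_add_distrib]
    refine Finset.sum_congr rfl fun i _ => ?_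
    rw [← mul_add, ← h2i i, e2 i]
  have h8 : (finrank K L : ℝ) * (logHeight a + ∑ i, (d i : ℝ) * logHeight₁ (x i)) =
      logHeight (fun i => algebraMap K L (a i)) +
        ∑ i, (d i : ℝ) * (finrank K L * logHeight₁ (x i)) := by
    rw [mul_add, e1, Finset.mul_sum]
    congr 1
    refine Finset.sum_congr rfl fun i _ => ?_
    ring
  rw [h8, h7]
  have h9 : logHeight (fun i => algebraMap K L (a i)) =
      ∑ w : InfinitePlace L, (w.mult : ℝ) * Real.log (⨆ j, w.1 (algebraMap K L (a j))) +
      ∑ v ∈ T, Real.log (⨆ j, fv v (algebraMap K L (a j))) := h2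
  linarith

/-- the proximity function -/
noncomputable def prox {K : Type} [Field K] {m : ℕ} {ι : Type} (L : Type) [Field L]
    [NumberField L] [Algebra K L] (S : Finset ℕ) (a : ι → K) (d : Fin m → ℕ) (b : K)
    (x : Fin m → K) : ℝ :=
  (∑ w : InfinitePlace L, (w.mult : ℝ) * loc L w.1 a d b x +
    ∑ᶠ w ∈ {w : HeightOneSpectrum (𝓞 L) | ¬ Outside S w}, loc L (fv w) a d b x) / finrank ℚ L

lemma prox_sum {a : ι → K} (ha : a ≠ 0) {d : Fin m → ℕ} {b : K} (hb : b ≠ 0) {x : Fin m → K}
    (hnn : ∀ w : HeightOneSpectrum (𝓞 L), 0 ≤ loc L (fv w) a d b x)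
    (S : Finset ℕ) (hS : ∀ p ∈ S, p.Prime) (W : Finset (HeightOneSpectrum (𝓞 L)))
    (hW : ∀ w ∈ W, Outside S w) :
    ∑ w ∈ W, loc L (fv w) a d b x ≤
      Module.finrank K L * ((logHeight a + ∑ i, (d i : ℝ) * logHeight₁ (x i)) -
        finrank ℚ K * prox L S a d b x) := by
  have hd : (0 : ℝ) < finrank ℚ K := by exact_mod_cast finrank_pos
  have hLp := finrank_pos' (K := K) (L := L)
  have htow : (finrank ℚ L : ℝ) = finrank ℚ K * finrank K L := by
    exact_mod_cast (finrank_mul_finrank ℚ K L).symm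
  set V := (above_finite (L := L) S hS).toFinset with hV
  have hdisj : Disjoint V W := by
    rw [Finset.disjoint_left]
    intro w hw hw'
    rw [hV, Set.Finite.mem_toFinset] at hw
    exact hw (hW w hw')
  have h1 := sum_loc_le (L := L) ha hb hnn (V ∪ W)
  rw [Finset.sum_union hdisj] at h1
  have h2 : (finrank K L : ℝ) * (finrank ℚ K * prox L S a d b x) =
      ∑ w : InfinitePlace L, (w.mult : ℝ) * loc L w.1 a d b x +
        ∑ w ∈ V, loc L (fv w) a d b x := by
    unfold prox
    rw [htow, finsum_mem_eq_finite_toFinset_sum _ (above_finite (L := L) S hS)]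
    field_simp
    rw [hV]
  rw [mul_sub, h2]
  linarith

end

end Pool.Agent.T2h19.ST
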